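import Mathlib
import Pool.Agent.LeoD.FieldStmts

/-!
# Module RPS of squad LEOD: one `BFr` for every ideal class
-/

set_option autoImplicit false

open NumberField IsDedekindDomain
open scoped nonZeroDivisors

namespace Pool.Agent.LeoD.H9

/-- `6` is no unit of the ring of integers. -/
theorem six_not_unit (k : Type) [Field k] [NumberField k] : ¬ IsUnit (6 : 𝓞 k) := by
  intro h
  have h1 : IsUnit (Algebra.norm ℤ (6 : 𝓞 k)) := h.map _
  have h2 : (6 : 𝓞 k) = algebraMap ℤ (𝓞 k) 6 := by simp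
  rw [h2, Algebra.norm_algebraMap, isUnit_pow_iff Module.finrank_pos.ne'] at h1
  rcases Int.isUnit_iff.1 h1 with h3 | h3 <;> norm_num at h3

/-- An ideal that is comaximal with `6` has norm prime to `6`. -/
theorem cop_six (k : Type) [Field k] [NumberField k] (M : Ideal (𝓞 k))
    (h0 : M ≠ ⊥) (h : M ⊔ Ideal.span {(6 : 𝓞 k)} = ⊤) : Nat.Coprime (Ideal.absNorm M) 6 := by
  have : Finite (𝓞 k ⧸ M) := Ideal.finiteQuotientOfFreeOfNeBot M h0
  have : Fintype (𝓞 k ⧸ M) := Fintype.ofFinite _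
  have hu : ∃ t : 𝓞 k ⧸ M, t * 6 = 1 := by
    have h1 : (1 : 𝓞 k) ∈ M ⊔ Ideal.span {(6 : 𝓞 k)} := by rw [h]; trivial
    obtain ⟨m, hm, s, hs, hms⟩ := Submodule.mem_sup.1 h1
    obtain ⟨c, rfl⟩ := Ideal.mem_span_singleton'.1 hs
    refine ⟨Ideal.Quotient.mk M c, ?_⟩
    have h2 := congrArg (Ideal.Quotient.mk M) hms
    rw [map_add, Ideal.Quotient.eq_zero_iff_mem.2 hm, zero_add, map_mul, map_one,
      map_ofNat] at h2
    exact h2
  obtain ⟨t, ht⟩ := hu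
  refine Nat.coprime_of_dvd fun p hp hpM hp6 => ?_
  have : Fact p.Prime := ⟨hp⟩
  have hc : p ∣ Fintype.card (𝓞 k ⧸ M) := by
    rw [← Nat.card_eq_fintype_card]
    exact hpM
  obtain ⟨x, hx⟩ := exists_prime_addOrderOf_dvd_card p hc
  obtain ⟨c, hc6⟩ := hp6
  have h1 : p • x = 0 := by rw [← hx]; exact addOrderOf_nsmul_eq_zero x
  have h2 : x = 0 := by
    have h6 : (6 : 𝓞 k ⧸ M) = (c : 𝓞 k ⧸ M) * (p : 𝓞 k ⧸ M) := by
      have : ((6 : ℕ) : 𝓞 k ⧸ M) = ((p * c : ℕ) : 𝓞 k ⧸ M) := by rw [hc6]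
      push_cast at this
      rw [this]
      ring
    calc x = (t * 6) * x := by rw [ht, one_mul]
      _ = t * (c : 𝓞 k ⧸ M) * ((p : 𝓞 k ⧸ M) * x) := by rw [h6]; ring
      _ = 0 := by rw [← nsmul_eq_mul, h1, mul_zero]
  rw [h2, addOrderOf_zero] at hx
  exact hp.one_lt.ne hx

/-- Every ideal has a complement, up to principal ideals, that is comaximal with `6`. -/
theorem comp_six (k : Type) [Field k] [NumberField k] (J : Ideal (𝓞 k)) (h0 : J ≠ ⊥) :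
    ∃ (M : Ideal (𝓞 k)) (a : 𝓞 k), a ≠ 0 ∧ M ≠ ⊥ ∧ J * M = Ideal.span {a} ∧
      M ⊔ Ideal.span {(6 : 𝓞 k)} = ⊤ := by
  have h6 : (6 : 𝓞 k) ≠ 0 := by
    simp
  have hI : J * Ideal.span {(6 : 𝓞 k)} ≠ 0 := by
    refine mul_ne_zero h0 ?_
    rw [Ne, Ideal.zero_eq_bot, Ideal.span_singleton_eq_bot]
    exact h6
  obtain ⟨a, ha⟩ := IsDedekindDomain.exists_sup_span_eq
    (I := J * Ideal.span {(6 : 𝓞 k)}) (J := J) Ideal.mul_le_left hI
  have haJ : Ideal.span {a} ≤ J := by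
    rw [← ha]
    exact le_sup_right
  obtain ⟨M, hM⟩ := Ideal.dvd_iff_le.2 haJ
  have hu : M ⊔ Ideal.span {(6 : 𝓞 k)} = ⊤ := by
    have h1 : J * (M ⊔ Ideal.span {(6 : 𝓞 k)}) = J * ⊤ := by
      rw [Ideal.mul_sup, ← hM, sup_comm, ha, Ideal.mul_top]
    exact mul_left_cancel₀ h0 h1
  have ha0 : a ≠ 0 := by
    rintro rfl
    have h2 : M = ⊥ := by
      have h3 : J * M = 0 := by
        rw [← hM]
        simp
      rcases mul_eq_zero.1 h3 with h4 | h4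
      · exact absurd h4 h0
      · exact h4
    rw [h2, bot_sup_eq, Ideal.span_singleton_eq_top] at hu
    exact six_not_unit k hu
  refine ⟨M, a, ha0, ?_, hM.symm, hu⟩
  rintro rfl
  rw [Ideal.mul_bot, Ideal.span_singleton_eq_bot] at hM
  exact ha0 hM

/-- A `BFr` for a given class. -/
theorem cls_bfr (k : Type) [Field k] [NumberField k] (C : ClassGroup (𝓞 k)) :
    ∃ B : BFr k, ∃ h : B.cc ≠ ⊥, (∀ p : HeightOneSpectrum (𝓞 k), (3 : 𝓞 k) ∈ p.asIdeal →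
      ¬ B.cc ≤ p.asIdeal) ∧ ClassGroup.mk0 ⟨B.cc, mem_nonZeroDivisors_of_ne_zero h⟩ = C := by
  obtain ⟨J, rfl⟩ := ClassGroup.mk0_surjective C
  have hJ : (J : Ideal (𝓞 k)) ≠ ⊥ := nonZeroDivisors.ne_zero J.2
  obtain ⟨M, a, ha0, hM0, hM, hu⟩ := comp_six k J hJ
  have hb0 : ((Ideal.absNorm M : ℕ) : 𝓞 k) ≠ 0 := by
    refine Nat.cast_ne_zero.2 ?_
    intro h
    exact hM0 (Ideal.absNorm_eq_zero_iff.1 h)
  have hbM : Ideal.span {((Ideal.absNorm M : ℕ) : 𝓞 k)} ≤ M := by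
    rw [Ideal.span_singleton_le_iff_mem]
    exact Ideal.absNorm_mem M
  obtain ⟨N, hN⟩ := Ideal.dvd_iff_le.2 hbM
  have hN0 : N ≠ ⊥ := by
    rintro rfl
    rw [Ideal.mul_bot, Ideal.span_singleton_eq_bot] at hN
    exact hb0 hN
  have hcop := cop_six k M hM0 hu
  refine ⟨⟨M, N, Ideal.absNorm M, rfl, hN.symm, hcop⟩, hN0, ?_, ?_⟩
  · intro p hp3 hle
    have h1 : ((Ideal.absNorm M : ℕ) : 𝓞 k) ∈ p.asIdeal := by
      refine hle (?_ : ((Ideal.absNorm M : ℕ) : 𝓞 k) ∈ N)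
      have h2 : ((Ideal.absNorm M : ℕ) : 𝓞 k) ∈ M * N := by
        rw [← hN]
        exact Ideal.mem_span_singleton_self _
      exact Ideal.mul_le_right h2
    have h3 : Nat.Coprime (Ideal.absNorm M) 3 := Nat.Coprime.coprime_dvd_right (by norm_num) hcop
    have h4 : IsCoprime ((Ideal.absNorm M : ℕ) : ℤ) ((3 : ℕ) : ℤ) := Nat.isCoprime_iff_coprime.2 h3
    obtain ⟨u, v, huv⟩ := h4
    have h5 : (1 : 𝓞 k) = (u : 𝓞 k) * ((Ideal.absNorm M : ℕ) : 𝓞 k) + (v : 𝓞 k) * 3 := by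
      have h6 := congrArg (fun z : ℤ => (z : 𝓞 k)) huv
      push_cast at h6
      exact h6.symm
    apply p.isPrime.ne_top
    rw [Ideal.eq_top_iff_one, h5]
    exact p.asIdeal.add_mem (p.asIdeal.mul_mem_left _ h1) (p.asIdeal.mul_mem_left _ hp3)
  · have h1 : ClassGroup.mk0 ⟨M, mem_nonZeroDivisors_of_ne_zero hM0⟩ *
        ClassGroup.mk0 ⟨N, mem_nonZeroDivisors_of_ne_zero hN0⟩ = 1 := by
      rw [← map_mul, ClassGroup.mk0_eq_one_iff]
      exact ⟨⟨((Ideal.absNorm M : ℕ) : 𝓞 k), hN.symm⟩⟩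
    have h2 : ClassGroup.mk0 J *
        ClassGroup.mk0 ⟨M, mem_nonZeroDivisors_of_ne_zero hM0⟩ = 1 := by
      rw [← map_mul, ClassGroup.mk0_eq_one_iff]
      exact ⟨⟨a, hM⟩⟩
    exact (eq_inv_of_mul_eq_one_right h1).trans (eq_inv_of_mul_eq_one_left h2).symm

/-- RPS. -/
theorem rps : RpsStmt := by
  intro k _ _
  choose B hB0 hB3 hBc using cls_bfr k
  refine ⟨ClassGroup (𝓞 k), inferInstance, B, ⟨1⟩, fun j => ⟨hB0 j, hB3 j⟩, ?_⟩
  intro I hI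
  have key : ∀ j : ClassGroup (𝓞 k), (∃ α β : 𝓞 k, α ≠ 0 ∧ β ≠ 0 ∧
      Ideal.span {α} * I = Ideal.span {β} * (B j).cc) ↔
      ClassGroup.mk0 ⟨I, mem_nonZeroDivisors_of_ne_zero hI⟩ = j := by
    intro j
    conv_rhs => rw [← hBc j]
    rw [ClassGroup.mk0_eq_mk0_iff]
    constructor
    · rintro ⟨α, β, h1, h2, h3⟩
      exact ⟨α, β, h1, h2, h3⟩
    · rintro ⟨α, β, h1, h2, h3⟩
      exact ⟨α, β, h1, h2, h3⟩
  refine ⟨ClassGroup.mk0 ⟨I, mem_nonZeroDivisors_of_ne_zero hI⟩, (key _).2 rfl, ?_⟩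
  intro j hj
  exact ((key j).1 hj).symm

end Pool.Agent.LeoD.H9
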