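import Mathlib
import Pool.Agent.LeoD.TowStmts
import Pool.Agent.Helper28_LeoD.Lra
import Pool.Agent.Helper84_LeoD.Lrb
import Pool.Agent.Helper76_LeoD.Eta
import Pool.Agent.Helper59_LeoK.Leo3
import Pool.Agent.Helper65_Leo3.Crt
import Pool.Agent.Helper79_LeoK.TwiB
import Pool.Agent.Helper83_Leo3.Gup

/-!
# Module WTL of squad LEOD, part TOW: from `WT` to Leopoldt's conjecture
-/

set_option autoImplicit false

open NumberField IsDedekindDomain Module Filter Topology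
open Pool.Agent.Helper85_Leo Pool.Agent.LeoK Pool.Agent.LeoG Pool.Agent.LeoC Pool.Agent.LeoD
open Pool.Agent.Leo3 (Om InLoc FixF)

namespace Pool.Agent.LeoD.H9

/-- WTL with the modules it uses as hypotheses. -/
theorem wtl_of (lra : LraStmt) (lrb : LrbStmt) (crt : Pool.Agent.Leo3.CrtStmt) : WtlStmt := by
  intro k K _ _ _ _ _ h2 hW hk
  by_contra hK
  obtain ⟨c, hc⟩ := H79.quad_exists (K := k) (L := K) h2
  obtain ⟨n, w, a, μ, f, hw, ha, hp, hf⟩ := lra k K c h2 hc hk hK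
  obtain ⟨η, hη, hz⟩ := lrb k K c n w a μ f h2 hc hw ha hp hf
  obtain ⟨z, hz1, hz2, hz3⟩ := hz 3
  have hz0 : ((z : 𝓞 K) : K) ≠ 0 := by
    intro h
    rw [h, zero_mul] at hz1
    exact zero_ne_one hz1
  have hloc : LocTor ((z : 𝓞 K) : K) := by
    intro φ
    have hn : ‖η φ‖ = 1 := H76.norm_tors (hη φ)
    have h0 : η φ ≠ 0 := by
      intro h
      rw [h, norm_zero] at hn
      exact zero_ne_one hn
    have hin : InLoc φ (η φ) := by
      intro ρ hρ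
      refine H76.eq_of_small 2 ?_
      intro N
      obtain ⟨z', -, -, hz'⟩ := hz N
      have h1 : ρ (η φ) - η φ = (φ ((z' : 𝓞 K) : K) - η φ) - ρ (φ ((z' : 𝓞 K) : K) - η φ) := by
        rw [map_sub, hρ]
        ring
      rw [h1]
      refine le_trans (norm_sub_le _ _) ?_
      rw [H76.norm_auto]
      have h3 := hz' φ
      linarith
    have h4 : InLoc φ (φ ((z : 𝓞 K) : K) * (η φ)⁻¹) :=
      Pool.Agent.Leo3.H83.inLoc_mul (Pool.Agent.Leo3.H83.inLoc_self φ _)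
        (Pool.Agent.Leo3.H83.inLoc_inv hin)
    have h5 : ‖φ ((z : 𝓞 K) : K) * (η φ)⁻¹ - 1‖ ≤ (3 : ℝ)⁻¹ ^ 3 := by
      have h6 : φ ((z : 𝓞 K) : K) * (η φ)⁻¹ - 1 = (φ ((z : 𝓞 K) : K) - η φ) * (η φ)⁻¹ := by
        rw [sub_mul, mul_inv_cancel₀ h0]
      rw [h6, norm_mul, norm_inv, hn, inv_one, mul_one]
      exact hz3 φ
    obtain ⟨w', hw1, hw2, -⟩ := crt K φ _ h4 3 (by norm_num) h5
    refine ⟨w', η φ, hw1, hin, hη φ, ?_⟩
    rw [hw2, mul_comm (η φ), mul_assoc, inv_mul_cancel₀ h0, mul_one]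
  have hnorm : Algebra.norm k ((z : 𝓞 K) : K) = 1 ^ 3 := by
    apply (algebraMap k K).injective
    rw [H79.quad_norm h2 c hc, one_pow, map_one]
    exact hz1
  obtain ⟨t, ht⟩ := hW ((z : 𝓞 K) : K) hz0 ⟨1, hnorm⟩ (Pool.Agent.LeoK.H59.valCube3_unit z) hloc
  exact hz2 t ht

/-- WTL. -/
theorem wtl : WtlStmt :=
  wtl_of Pool.Agent.LeoD.H28.lra Pool.Agent.LeoD.H84.lrb Pool.Agent.Leo3.H65.crt

end Pool.Agent.LeoD.H9
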